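import Pool.Agent.Work.MP_e4a69c_an.CM.Theta
import Pool.Agent.Work.MP_e4a69c_an.ML.Core

/-! Composition of equivariant sprays on a set. -/

set_option autoImplicit false

namespace Pool.Agent.Work.MP_e4a69c_an.CM

open scoped Manifold ContDiff Topology
open Pool.Agent.Work.MP_e4a69c_an.SU

section

variable {𝔤 : Type} [NormedAddCommGroup 𝔤] [NormedSpace ℂ 𝔤]
variable {G : Type} [TopologicalSpace G] [ChartedSpace 𝔤 G] [Group G]
variable {V : Type} [NormedAddCommGroup V] [NormedSpace ℂ V]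

theorem gell_mono (ρ : GMod 𝔤 G V) (U : Set V) (R1 R2 : V → Set V)
    (h : ∀ x ∈ U, R1 x ⊆ R2 x) (h2 : GEll ρ U R2) : GEll ρ U R1 := by
  obtain ⟨W, i1, i2, i3, σ, s, a1, a2, a3, a4, a5⟩ := h2
  exact ⟨W, i1, i2, i3, σ, s, a1, a2, a3, a4, fun x hx τ hτ => a5 x hx τ (h x hx hτ)⟩

theorem gell_comp (ρ : GMod 𝔤 G V) (U : Set V) (R1 R2 : V → Set V) (h1 : GEll ρ U R1)
    (h2 : GEll ρ U R2) : GEll ρ U (fun y => (Submodule.span ℂ (R1 y ∪ R2 y) : Set V)) := by
  obtain ⟨W1, i1, j1, k1, σ1, s1, a1, b1, c1, e1, d1⟩ := h1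
  obtain ⟨W2, i2, j2, k2, σ2, s2, a2, b2, c2, e2, d2⟩ := h2
  have hol : Differentiable ℂ (fun x : V × (W1 × W2) => s2 (s1 (x.1, x.2.1), x.2.2)) :=
    a2.comp ((a1.comp (differentiable_fst.prodMk
        (differentiable_fst.comp differentiable_snd))).prodMk
        (differentiable_snd.comp differentiable_snd))
  refine ⟨W1 × W2, inferInstance, inferInstance, inferInstance, σ1.prod σ2,
    fun x => s2 (s1 (x.1, x.2.1), x.2.2), hol, ?_, ?_, ?_, ?_⟩
  · intro y hy
    show s2 (s1 (y, 0), 0) = y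
    rw [b1 y hy, b2 y hy]
  · intro y hy w
    exact c2 _ (c1 _ hy _) _
  · intro g y w
    show s2 (s1 (ρ.act g y, σ1.act g w.1), σ2.act g w.2) = _
    rw [e1, e2]
  intro y hy τ hτ
  have hd : HasFDerivAt (fun w : W1 × W2 => s2 (s1 (y, w.1), w.2))
      (fderiv ℂ (fun w : W1 × W2 => s2 (s1 (y, w.1), w.2)) 0) 0 := by
    apply DifferentiableAt.hasFDerivAt
    exact (hol.comp ((differentiable_const y).prodMk differentiable_id)) 0
  have hspan : Submodule.span ℂ (R1 y ∪ R2 y) ≤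
      LinearMap.range (fderiv ℂ (fun w : W1 × W2 => s2 (s1 (y, w.1), w.2)) 0).toLinearMap := by
    rw [Submodule.span_le]
    rintro τ (h | h)
    · obtain ⟨w, hw⟩ := d1 y hy τ h
      refine ⟨(w, 0), ?_⟩
      have hc : HasFDerivAt (fun w1 : W1 => s2 (s1 (y, (ContinuousLinearMap.inl ℂ W1 W2 w1).1),
            (ContinuousLinearMap.inl ℂ W1 W2 w1).2))
          ((fderiv ℂ (fun w : W1 × W2 => s2 (s1 (y, w.1), w.2)) 0).comp
            (ContinuousLinearMap.inl ℂ W1 W2)) 0 := by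
        apply HasFDerivAt.comp (0 : W1) (g := fun w : W1 × W2 => s2 (s1 (y, w.1), w.2))
          (f := fun w1 : W1 => ContinuousLinearMap.inl ℂ W1 W2 w1)
        · rw [map_zero]; exact hd
        · exact (ContinuousLinearMap.inl ℂ W1 W2).hasFDerivAt
      have he : (fun w1 : W1 => s2 (s1 (y, (ContinuousLinearMap.inl ℂ W1 W2 w1).1),
            (ContinuousLinearMap.inl ℂ W1 W2 w1).2))
          = fun w1 : W1 => s1 (y, w1) := by
        funext w1
        show s2 (s1 (y, w1), 0) = s1 (y, w1)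
        exact b2 _ (c1 _ hy _)
      rw [he] at hc
      have h3 := hc.fderiv
      rw [← hw, h3]
      rfl
    · obtain ⟨w, hw⟩ := d2 y hy τ h
      refine ⟨(0, w), ?_⟩
      have hc : HasFDerivAt (fun w1 : W2 => s2 (s1 (y, (ContinuousLinearMap.inr ℂ W1 W2 w1).1),
            (ContinuousLinearMap.inr ℂ W1 W2 w1).2))
          ((fderiv ℂ (fun w : W1 × W2 => s2 (s1 (y, w.1), w.2)) 0).comp
            (ContinuousLinearMap.inr ℂ W1 W2)) 0 := by
        apply HasFDerivAt.comp (0 : W2) (g := fun w : W1 × W2 => s2 (s1 (y, w.1), w.2))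
          (f := fun w1 : W2 => ContinuousLinearMap.inr ℂ W1 W2 w1)
        · rw [map_zero]; exact hd
        · exact (ContinuousLinearMap.inr ℂ W1 W2).hasFDerivAt
      have he : (fun w1 : W2 => s2 (s1 (y, (ContinuousLinearMap.inr ℂ W1 W2 w1).1),
            (ContinuousLinearMap.inr ℂ W1 W2 w1).2))
          = fun w1 : W2 => s2 (y, w1) := by
        funext w1
        show s2 (s1 (y, 0), w1) = s2 (y, w1)
        rw [b1 y hy]
      rw [he] at hc
      have h3 := hc.fderiv
      rw [← hw, h3]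
      rfl
  obtain ⟨w, hw⟩ := hspan hτ
  exact ⟨w, hw⟩

theorem gell_empty (ρ : GMod 𝔤 G V) (U : Set V) : GEll ρ U (fun _ => {0}) := by
  refine ⟨ℂ, inferInstance, inferInstance, inferInstance, GMod.triv ℂ, fun x => x.1,
    differentiable_fst, fun y _ => rfl, fun y hy _ => hy, fun g y w => rfl, ?_⟩
  rintro y _ τ rfl
  refine ⟨0, ?_⟩
  exact map_zero _

theorem gell_finset (ρ : GMod 𝔤 G V) (U : Set V) {κ : Type} (R : κ → V → Set V)
    (h : ∀ j, GEll ρ U (R j)) (s : Finset κ) :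
    GEll ρ U (fun y => (Submodule.span ℂ (⋃ j ∈ s, R j y) : Set V)) := by
  classical
  induction s using Finset.induction_on with
  | empty =>
    refine gell_mono ρ U _ _ ?_ (gell_empty ρ U)
    intro x _ τ hτ
    simpa using hτ
  | insert j s hj ih =>
    refine gell_mono ρ U _ _ ?_ (gell_comp ρ U _ _ (h j) ih)
    intro x _ τ hτ
    have h1 : Submodule.span ℂ (⋃ k ∈ insert j s, R k x) ≤
        Submodule.span ℂ (R j x ∪ (Submodule.span ℂ (⋃ k ∈ s, R k x) : Set V)) := by
      rw [Submodule.span_le]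
      intro u hu
      simp only [Set.mem_iUnion] at hu
      obtain ⟨k, hk, hu⟩ := hu
      rcases Finset.mem_insert.1 hk with rfl | hk
      · exact Submodule.subset_span (Or.inl hu)
      · refine Submodule.subset_span (Or.inr (Submodule.subset_span ?_))
        simp only [Set.mem_iUnion]
        exact ⟨k, hk, hu⟩
    exact h1 hτ

end

end Pool.Agent.Work.MP_e4a69c_an.CM
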