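import Pool.Agent.Work.MP_e4a69c_an.SU.Core

/-! Complements of multiaffine zero sets: the definitions used in the statement. -/

set_option autoImplicit false

namespace Pool.Agent.Work.MP_e4a69c_an.CM

open scoped Manifold ContDiff Topology
open Pool.Agent.Work.MP_e4a69c_an.SU

section

variable {𝔤 : Type} [NormedAddCommGroup 𝔤] [NormedSpace ℂ 𝔤]
variable {G : Type} [TopologicalSpace G] [ChartedSpace 𝔤 G] [Group G]
variable {ι : Type} [Fintype ι] {M : ι → Type} [∀ i, NormedAddCommGroup (M i)]
  [∀ i, NormedSpace ℂ (M i)]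
variable {E : Type} [NormedAddCommGroup E] [NormedSpace ℂ E]

/-- `ρV` is the product of the modules `M i`. -/
def IsPi (ρ : ∀ i, GMod 𝔤 G (M i)) (ρV : GMod 𝔤 G (∀ i, M i)) : Prop :=
  ∀ g x i, ρV.act g x i = (ρ i).act g (x i)

/-- The map `F` is entire, equivariant, and affine in every variable `x i`. -/
structure IsMultiaffine [DecidableEq ι] (ρV : GMod 𝔤 G (∀ i, M i)) (ρE : GMod 𝔤 G E)
    (F : (∀ i, M i) → E) : Prop where
  hol : Differentiable ℂ F
  equi : ∀ g x, F (ρV.act g x) = ρE.act g (F x)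
  aff : ∀ x i, IsLinearMap ℂ (fun m : M i => F (Function.update x i m) - F (Function.update x i 0))

end

end Pool.Agent.Work.MP_e4a69c_an.CM
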