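import Pool.Agent.Work.MP_e4a69c_an.CM.Comp

/-! Complements of multiaffine zero sets are G-elliptic. -/

set_option autoImplicit false

namespace Pool.Agent.Work.MP_e4a69c_an.CM

open scoped Manifold ContDiff Topology
open NormedSpace
open Pool.Agent.Work.MP_e4a69c_an.SU Pool.Agent.Work.MP_e4a69c_an.ML

section

variable {𝔤 : Type} [NormedAddCommGroup 𝔤] [NormedSpace ℂ 𝔤]
variable {G : Type} [TopologicalSpace G] [ChartedSpace 𝔤 G] [Group G] [LieGroup 𝓘(ℂ, 𝔤) ω G]
variable {ι : Type} [Fintype ι] [DecidableEq ι] {M : ι → Type} [∀ i, NormedAddCommGroup (M i)]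
  [∀ i, NormedSpace ℂ (M i)] [∀ i, FiniteDimensional ℂ (M i)]
variable {E : Type} [NormedAddCommGroup E] [NormedSpace ℂ E] [FiniteDimensional ℂ E]

/-- the linear part of `F` in the slot `j` -/
noncomputable def lp (F : (∀ i, M i) → E) (x : ∀ i, M i) (j : ι) : M j →L[ℂ] E :=
  (fderiv ℂ F x).comp (ContinuousLinearMap.single ℂ M j)

/-- `F` is affine in every slot -/
def Aff (F : (∀ i, M i) → E) : Prop :=
  ∀ x i, IsLinearMap ℂ (fun m : M i => F (Function.update x i m) - F (Function.update x i 0))

theorem upd_add (x : ∀ i, M i) (j : ι) (h : M j) :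
    Function.update x j (x j + h) = x + ContinuousLinearMap.single ℂ M j h := by
  funext i
  by_cases hi : i = j
  · subst hi
    rw [Function.update_self, Pi.add_apply]
    show x i + h = x i + Pi.single i h i
    rw [Pi.single_eq_same]
  · rw [Function.update_of_ne hi, Pi.add_apply]
    show x i = x i + Pi.single j h i
    rw [Pi.single_eq_of_ne hi, add_zero]

theorem lp_apply (F : (∀ i, M i) → E) (hF : Differentiable ℂ F) (hA : Aff F) (x : ∀ i, M i)
    (j : ι) (m : M j) :
    lp F x j m = F (Function.update x j m) - F (Function.update x j 0) := by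
  have h1 : HasDerivAt (fun t : ℂ => x + t • ContinuousLinearMap.single ℂ M j m)
      (ContinuousLinearMap.single ℂ M j m) 0 := by
    have h2 : HasDerivAt (fun t : ℂ => t • ContinuousLinearMap.single ℂ M j m)
        ((1 : ℂ) • ContinuousLinearMap.single ℂ M j m) 0 :=
      (hasDerivAt_id (0 : ℂ)).smul_const _
    rw [one_smul] at h2
    exact h2.const_add x
  have h3 : HasDerivAt (fun t : ℂ => F (x + t • ContinuousLinearMap.single ℂ M j m))
      (lp F x j m) 0 := by
    have h4 : HasFDerivAt F (fderiv ℂ F x)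
        ((fun t : ℂ => x + t • ContinuousLinearMap.single ℂ M j m) 0) := by
      simp only [zero_smul, add_zero]
      exact (hF x).hasFDerivAt
    exact h4.comp_hasDerivAt 0 h1
  have h5 : (fun t : ℂ => F (x + t • ContinuousLinearMap.single ℂ M j m)) =
      fun t : ℂ => (F (Function.update x j (x j)) +
        t • (F (Function.update x j m) - F (Function.update x j 0))) := by
    funext t
    rw [← map_smul, ← upd_add]
    have h6 := (hA x j).map_add (x j) (t • m)
    have h7 := (hA x j).map_smul t m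
    have h8 : F (Function.update x j (x j + t • m)) =
        (F (Function.update x j (x j + t • m)) - F (Function.update x j 0)) +
          F (Function.update x j 0) := by abel
    rw [h8, h6, h7]
    abel
  have h9 : HasDerivAt (fun t : ℂ => (F (Function.update x j (x j)) +
        t • (F (Function.update x j m) - F (Function.update x j 0))))
      (F (Function.update x j m) - F (Function.update x j 0)) 0 := by
    have h2 : HasDerivAt (fun t : ℂ => t •
          (F (Function.update x j m) - F (Function.update x j 0)))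
        ((1 : ℂ) • (F (Function.update x j m) - F (Function.update x j 0))) 0 :=
      (hasDerivAt_id (0 : ℂ)).smul_const _
    rw [one_smul] at h2
    exact h2.const_add _
  rw [← h5] at h9
  exact h3.unique h9

theorem F_upd (F : (∀ i, M i) → E) (hF : Differentiable ℂ F) (hA : Aff F) (x : ∀ i, M i)
    (j : ι) (h : M j) : F (Function.update x j (x j + h)) = F x + lp F x j h := by
  rw [lp_apply F hF hA]
  have h6 := (hA x j).map_add (x j) h
  have h8 : F (Function.update x j (x j + h)) =
      (F (Function.update x j (x j + h)) - F (Function.update x j 0)) +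
        F (Function.update x j 0) := by abel
  rw [h8, h6, Function.update_eq_self]
  abel

theorem lp_diff (F : (∀ i, M i) → E) (hF : Differentiable ℂ F) (j : ι) :
    Differentiable ℂ (fun x => lp F x j) := by
  have : CompleteSpace E := FiniteDimensional.complete ℂ E
  exact (pr_GO (∀ i, M i) E F hF).clm_comp (differentiable_const _)

theorem upd_act (ρ : ∀ i, GMod 𝔤 G (M i)) (g : G) (x : ∀ i, M i) (j : ι) (m : M j) :
    (fun i => (ρ i).act g (Function.update x j m i)) =
      Function.update (fun i => (ρ i).act g (x i)) j ((ρ j).act g m) := by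
  funext i
  by_cases hi : i = j
  · subst hi
    rw [Function.update_self, Function.update_self]
  · rw [Function.update_of_ne hi, Function.update_of_ne hi]

theorem lp_act (ρ : ∀ i, GMod 𝔤 G (M i)) (ρE : GMod 𝔤 G E) (F : (∀ i, M i) → E)
    (hF : Differentiable ℂ F) (hA : Aff F)
    (hq : ∀ g x, F (fun i => (ρ i).act g (x i)) = ρE.act g (F x)) (g : G) (x : ∀ i, M i) (j : ι)
    (m : M j) :
    lp F (fun i => (ρ i).act g (x i)) j ((ρ j).act g m) = ρE.act g (lp F x j m) := by
  rw [lp_apply F hF hA, lp_apply F hF hA, map_sub, ← hq, ← hq, upd_act, upd_act, map_zero]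

theorem exp_ne (Φ : E →L[ℂ] E) (v : E) (hv : v ≠ 0) : exp Φ v ≠ 0 := by
  have : CompleteSpace E := FiniteDimensional.complete ℂ E
  intro h
  have h1 : (exp (-Φ) * exp Φ) v = v := by rw [ISG.inv Φ]; rfl
  have h2 : exp (-Φ) (exp Φ v) = v := h1
  rw [h, map_zero] at h2
  exact hv h2.symm

theorem der_aux {H V : Type} [NormedAddCommGroup H] [NormedSpace ℂ H] [NormedAddCommGroup V]
    [NormedSpace ℂ V] (L : H →L[ℂ] V) (x : V) (g : (E →L[ℂ] H) → E)
    (hg : DifferentiableAt ℂ g 0) (t : E →L[ℂ] H) :
    fderiv ℂ (fun t : E →L[ℂ] H => x + L (t (g t))) 0 t = L (t (g 0)) := by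
  have hid : HasFDerivAt (fun t : E →L[ℂ] H => t)
      (ContinuousLinearMap.id ℂ (E →L[ℂ] H)) 0 := hasFDerivAt_id _
  have h7 := hid.clm_apply hg.hasFDerivAt
  have h8 := (L.hasFDerivAt (x := (0 : E →L[ℂ] H) (g 0))).comp (0 : E →L[ℂ] H) h7
  have h9 := h8.const_add x
  have h10 : fderiv ℂ (fun t : E →L[ℂ] H => x + L (t (g t))) 0 = _ := h9.fderiv
  rw [h10]
  simp

/-- the spray in the slot `j` -/
noncomputable def sj (F : (∀ i, M i) → E) (j : ι) : (∀ i, M i) × (E →L[ℂ] M j) → ∀ i, M i :=
  fun q => q.1 + ContinuousLinearMap.single ℂ M j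
    (q.2 (theta ((lp F q.1 j).comp q.2) (F q.1)))

theorem slot (ρ : ∀ i, GMod 𝔤 G (M i)) (ρE : GMod 𝔤 G E) (ρV : GMod 𝔤 G (∀ i, M i))
    (F : (∀ i, M i) → E) (hV : ∀ g x, ρV.act g x = fun i => (ρ i).act g (x i))
    (hF : Differentiable ℂ F) (hq : ∀ g x, F (ρV.act g x) = ρE.act g (F x)) (hA : Aff F) (j : ι) :
    GEll ρV {x | F x ≠ 0} (fun _ => {τ | ∀ k, k ≠ j → τ k = 0}) := by
  have hq' : ∀ g x, F (fun i => (ρ i).act g (x i)) = ρE.act g (F x) := by
    intro g x
    rw [← hV, hq]
  have hL : Differentiable ℂ (fun q : (∀ i, M i) × (E →L[ℂ] M j) => (lp F q.1 j).comp q.2) :=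
    ((lp_diff F hF j).comp differentiable_fst).clm_comp differentiable_snd
  have hth : Differentiable ℂ (fun q : (∀ i, M i) × (E →L[ℂ] M j) =>
      theta ((lp F q.1 j).comp q.2)) := (theta_diff (E := E)).comp hL
  have hdir : Differentiable ℂ (fun q : (∀ i, M i) × (E →L[ℂ] M j) =>
      q.2 (theta ((lp F q.1 j).comp q.2) (F q.1))) :=
    differentiable_snd.clm_apply (hth.clm_apply (hF.comp differentiable_fst))
  refine ⟨E →L[ℂ] M j, inferInstance, inferInstance, inferInstance, ρE.hom (ρ j), sj F j,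
    ?_, ?_, ?_, ?_, ?_⟩
  · exact differentiable_fst.add
      ((ContinuousLinearMap.single ℂ M j).differentiable.comp hdir)
  · intro x _
    show x + ContinuousLinearMap.single ℂ M j ((0 : E →L[ℂ] M j) _) = x
    rw [ContinuousLinearMap.zero_apply, map_zero, add_zero]
  · intro x hx t
    have h1 : F (sj F j (x, t)) = exp ((lp F x j).comp t) (F x) := by
      show F (x + ContinuousLinearMap.single ℂ M j
        (t (theta ((lp F x j).comp t) (F x)))) = _
      rw [← upd_add, F_upd F hF hA]
      have h2 : (((lp F x j).comp t) * theta ((lp F x j).comp t)) (F x) =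
          (exp ((lp F x j).comp t) - 1) (F x) := by rw [mul_theta]
      have h3 : lp F x j (t (theta ((lp F x j).comp t) (F x))) =
          exp ((lp F x j).comp t) (F x) - F x := h2
      rw [h3]
      abel
    show F (sj F j (x, t)) ≠ 0
    rw [h1]
    exact exp_ne _ _ hx
  · intro g x t
    have hΦ : ρE.act g * ((lp F x j).comp t) =
        ((lp F (ρV.act g x) j).comp ((ρE.hom (ρ j)).act g t)) * ρE.act g := by
      apply ContinuousLinearMap.ext
      intro v
      show ρE.act g (lp F x j (t v)) =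
        lp F (ρV.act g x) j ((ρE.hom (ρ j)).act g t (ρE.act g v))
      rw [GMod.hom_act, GMod.act_inv_act, hV, lp_act ρ ρE F hF hA hq']
    have hth2 := theta_semi hΦ
    have h4 : theta ((lp F (ρV.act g x) j).comp ((ρE.hom (ρ j)).act g t)) (ρE.act g (F x)) =
        ρE.act g (theta ((lp F x j).comp t) (F x)) := by
      have h5 : (ρE.act g * theta ((lp F x j).comp t)) (F x) =
        (theta ((lp F (ρV.act g x) j).comp ((ρE.hom (ρ j)).act g t)) * ρE.act g) (F x) := by
        rw [hth2]
      exact h5.symm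
    show ρV.act g x + ContinuousLinearMap.single ℂ M j (((ρE.hom (ρ j)).act g t)
        (theta ((lp F (ρV.act g x) j).comp ((ρE.hom (ρ j)).act g t)) (F (ρV.act g x)))) =
      ρV.act g (x + ContinuousLinearMap.single ℂ M j (t (theta ((lp F x j).comp t) (F x))))
    rw [hq, h4, GMod.hom_act, GMod.act_inv_act, map_add, hV g (ContinuousLinearMap.single ℂ M j _)]
    congr 1
    funext i
    show Pi.single j ((ρ j).act g (t (theta ((lp F x j).comp t) (F x)))) i =
      (ρ i).act g (Pi.single j (t (theta ((lp F x j).comp t) (F x))) i)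
    by_cases hi : i = j
    · subst hi
      rw [Pi.single_eq_same, Pi.single_eq_same]
    · rw [Pi.single_eq_of_ne hi, Pi.single_eq_of_ne hi, map_zero]
  · intro x hx τ hτ
    have hx' : F x ≠ 0 := hx
    obtain ⟨ℓ, hℓ⟩ : ∃ ℓ : E →L[ℂ] ℂ, ℓ (F x) = 1 := SeparatingDual.exists_eq_one hx'
    refine ⟨ℓ.smulRight (τ j), ?_⟩
    have hg : Differentiable ℂ (fun t : E →L[ℂ] M j => theta ((lp F x j).comp t) (F x)) :=
      ((theta_diff (E := E)).comp ((differentiable_const (lp F x j)).clm_comp
        differentiable_id)).clm_apply (differentiable_const _)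
    refine (der_aux (ContinuousLinearMap.single ℂ M j) x _ (hg 0) (ℓ.smulRight (τ j))).trans ?_
    have h11 : theta ((lp F x j).comp (0 : E →L[ℂ] M j)) = 1 := by
      rw [ContinuousLinearMap.comp_zero, theta_zero]
    rw [h11]
    funext i
    show Pi.single j (ℓ.smulRight (τ j) ((1 : E →L[ℂ] E) (F x))) i = τ i
    have h12 : ℓ.smulRight (τ j) ((1 : E →L[ℂ] E) (F x)) = τ j := by
      show ℓ (F x) • τ j = τ j
      rw [hℓ, one_smul]
    rw [h12]
    by_cases hi : i = j
    · subst hi
      rw [Pi.single_eq_same]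
    · rw [Pi.single_eq_of_ne hi, hτ i hi]

theorem complement (ρ : ∀ i, GMod 𝔤 G (M i)) (ρE : GMod 𝔤 G E) (ρV : GMod 𝔤 G (∀ i, M i))
    (F : (∀ i, M i) → E) (hV : ∀ g x, ρV.act g x = fun i => (ρ i).act g (x i))
    (hF : Differentiable ℂ F) (hq : ∀ g x, F (ρV.act g x) = ρE.act g (F x)) (hA : Aff F) :
    GEll ρV {x | F x ≠ 0} (fun _ => Set.univ) := by
  refine gell_mono ρV _ _ _ ?_ (gell_finset ρV {x | F x ≠ 0}
    (fun (j : ι) (_ : ∀ i, M i) => {τ : ∀ i, M i | ∀ k, k ≠ j → τ k = 0})
    (fun j => slot ρ ρE ρV F hV hF hq hA j) Finset.univ)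
  intro x _ τ _
  have h1 : τ = ∑ j, ContinuousLinearMap.single ℂ M j (τ j) := by
    funext i
    rw [Finset.sum_apply]
    show τ i = ∑ j, (Pi.single j (τ j) : ∀ i, M i) i
    rw [Finset.sum_eq_single i]
    · rw [Pi.single_eq_same]
    · intro j _ hj
      rw [Pi.single_eq_of_ne (Ne.symm hj)]
    · intro h
      exact absurd (Finset.mem_univ i) h
  show τ ∈ Submodule.span ℂ _
  rw [h1]
  apply Submodule.sum_mem
  intro j _
  apply Submodule.subset_span
  simp only [Set.mem_iUnion]
  refine ⟨j, Finset.mem_univ j, ?_⟩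
  intro k hk
  show (Pi.single j (τ j) : ∀ i, M i) k = 0
  exact Pi.single_eq_of_ne hk _

end

end Pool.Agent.Work.MP_e4a69c_an.CM
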