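import Pool.Agent.Work.MP_e4a69c_an.SU.All

/-! The entire function `Θ(Φ) = (exp Φ - 1)/Φ` of an endomorphism. -/

set_option autoImplicit false

namespace Pool.Agent.Work.MP_e4a69c_an.CM

open scoped Manifold ContDiff Topology
open NormedSpace MeasureTheory
open Pool.Agent.Work.MP_e4a69c_an.SU

section

variable {E : Type} [NormedAddCommGroup E] [NormedSpace ℂ E] [FiniteDimensional ℂ E]

/-- `Θ(Φ) = ∫₀¹ exp(τ Φ) dτ` -/
noncomputable def theta (Φ : E →L[ℂ] E) : E →L[ℂ] E := ∫ τ in (0 : ℝ)..1, exp ((τ : ℂ) • Φ)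

theorem exp_diff : Differentiable ℂ (exp : (E →L[ℂ] E) → (E →L[ℂ] E)) := by
  have : CompleteSpace E := FiniteDimensional.complete ℂ E
  exact fun A => (exp_analytic (𝕂 := ℂ) A).differentiableAt

theorem exp_cont (Φ : E →L[ℂ] E) : Continuous (fun τ : ℝ => exp ((τ : ℂ) • Φ)) :=
  (exp_diff (E := E)).continuous.comp (Complex.continuous_ofReal.smul continuous_const)

theorem theta_diff : Differentiable ℂ (theta : (E →L[ℂ] E) → (E →L[ℂ] E)) := by
  have h1 := aPI (E →L[ℂ] E) (E →L[ℂ] E) exp exp_diff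
  have h2 : Differentiable ℂ (fun Φ : E →L[ℂ] E => ((0 : E →L[ℂ] E), Φ)) :=
    (differentiable_const _).prodMk differentiable_id
  have h3 := h1.comp h2
  have h4 : (fun x : (E →L[ℂ] E) × (E →L[ℂ] E) =>
      ∫ τ in (0 : ℝ)..1, exp (x.1 + (τ : ℂ) • x.2)) ∘ (fun Φ : E →L[ℂ] E => (0, Φ)) = theta := by
    funext Φ
    show (∫ τ in (0 : ℝ)..1, exp (0 + (τ : ℂ) • Φ)) = theta Φ
    simp only [zero_add]
    rfl
  rw [h4] at h3
  exact h3

theorem theta_zero : theta (0 : E →L[ℂ] E) = 1 := by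
  unfold theta
  simp

theorem mul_theta (Φ : E →L[ℂ] E) : Φ * theta Φ = exp Φ - 1 := by
  have : CompleteSpace E := FiniteDimensional.complete ℂ E
  have h1 : ∀ τ : ℝ, HasDerivAt (fun τ : ℝ => exp ((τ : ℂ) • Φ))
      (Φ * exp ((τ : ℂ) • Φ)) τ := by
    intro τ
    have h2 : HasDerivAt (fun u : ℂ => exp (u • Φ)) (Φ * exp ((τ : ℂ) • Φ)) (τ : ℂ) :=
      hasDerivAt_exp_smul_const' Φ (τ : ℂ)
    have h5 := h2.scomp τ Complex.ofRealCLM.hasDerivAt
    have h6 : Complex.ofRealCLM (1 : ℝ) • (Φ * exp ((τ : ℂ) • Φ)) = Φ * exp ((τ : ℂ) • Φ) := by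
      rw [Complex.ofRealCLM_apply, Complex.ofReal_one, one_smul]
    rw [h6] at h5
    exact h5
  have h3 : ∫ τ in (0 : ℝ)..1, Φ * exp ((τ : ℂ) • Φ) =
      exp (((1 : ℝ) : ℂ) • Φ) - exp (((0 : ℝ) : ℂ) • Φ) := by
    refine intervalIntegral.integral_eq_sub_of_hasDerivAt
      (f := fun τ : ℝ => exp ((τ : ℂ) • Φ)) (f' := fun τ : ℝ => Φ * exp ((τ : ℂ) • Φ)) ?_ ?_
    · intro τ _
      exact h1 τ
    · exact (continuous_const.mul (exp_cont Φ)).intervalIntegrable 0 1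
  have h4 : ∫ τ in (0 : ℝ)..1, Φ * exp ((τ : ℂ) • Φ) = Φ * theta Φ := by
    have h5 := ContinuousLinearMap.intervalIntegral_comp_comm
      (ContinuousLinearMap.compL ℂ E E E Φ) ((exp_cont Φ).intervalIntegrable (μ := volume) 0 1)
    exact h5
  rw [← h4, h3]
  simp

theorem theta_semi {g Φ Φ' : E →L[ℂ] E} (h : g * Φ = Φ' * g) : g * theta Φ = theta Φ' * g := by
  have : CompleteSpace E := FiniteDimensional.complete ℂ E
  have h1 := ContinuousLinearMap.intervalIntegral_comp_comm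
      (ContinuousLinearMap.compL ℂ E E E g) ((exp_cont Φ).intervalIntegrable (μ := volume) 0 1)
  have h2 := ContinuousLinearMap.intervalIntegral_comp_comm
      ((ContinuousLinearMap.compL ℂ E E E).flip g)
      ((exp_cont Φ').intervalIntegrable (μ := volume) 0 1)
  have h3 : (∫ τ in (0 : ℝ)..1, (ContinuousLinearMap.compL ℂ E E E g) (exp ((τ : ℂ) • Φ))) =
      ∫ τ in (0 : ℝ)..1, ((ContinuousLinearMap.compL ℂ E E E).flip g) (exp ((τ : ℂ) • Φ')) := by
    congr 1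
    funext τ
    have h4 : g * ((τ : ℂ) • Φ) = ((τ : ℂ) • Φ') * g := by
      rw [mul_smul_comm, h, smul_mul_assoc]
    exact ISG.semi h4
  exact (h1.symm.trans h3).trans h2

end

end Pool.Agent.Work.MP_e4a69c_an.CM
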